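import Pool.Agent.Q110.RK.Stm

/-!
# Project RK (helper110), job CCT: the number of tuples with all products one
-/

set_option autoImplicit false

namespace Pool.Agent.Q154.RK

open Finset Module Pool.Agent.Q110.RK

theorem om_sum_left {m k : ℕ} (c : Fin k → ZMod 2) (v : Fin k → Vec m) (w : Vec m) :
    om (∑ i, c i • v i) w = ∑ i, c i * om (v i) w := by
  rw [← omB_apply, map_sum, LinearMap.sum_apply]
  refine Finset.sum_congr rfl fun i _ => ?_
  rw [omB_apply, om_smul_left]

/-- the vectors but the last one are linearly independent -/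
theorem linInd {m k : ℕ} (v : Fin (k + 1) → Vec m) (hv : ∀ i j, i ≠ j → om (v i) (v j) = 1) :
    LinearIndependent (ZMod 2) (fun i : Fin k => v i.castSucc) := by
  rw [Fintype.linearIndependent_iff]
  intro c hc j
  have h1 : ∑ i, c i = 0 := by
    have h := om_sum_left c (fun i : Fin k => v i.castSucc) (v (Fin.last k))
    rw [hc, om_zero_left] at h
    rw [h]
    refine Finset.sum_congr rfl fun i _ => ?_
    rw [hv _ _ (Fin.castSucc_lt_last i).ne, mul_one]
  have h2 : ∑ i, c i = c j := by
    have h := om_sum_left c (fun i : Fin k => v i.castSucc) (v j.castSucc)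
    rw [hc, om_zero_left] at h
    have h3 : ∑ i, c i * om (v i.castSucc) (v j.castSucc) = ∑ i, (c i - if i = j then c j else 0) := by
      refine Finset.sum_congr rfl fun i _ => ?_
      by_cases hij : i = j
      · subst hij
        rw [om_self, if_pos rfl, mul_zero, sub_self]
      · rw [hv _ _ (fun h => hij (Fin.castSucc_injective k h)), if_neg hij, mul_one, sub_zero]
    rw [h3, Finset.sum_sub_distrib, Finset.sum_ite_eq' univ j, if_pos (Finset.mem_univ j)] at h
    exact (sub_eq_zero.1 h.symm)
  rw [← h2, h1]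

/-- the number of the vectors with all products one with the given vectors -/
theorem fibre {m k : ℕ} (v : Fin (k + 1) → Vec m) (hv : ∀ i j, i ≠ j → om (v i) (v j) = 1)
    (W : Finset (Vec m)) (hW : ∀ w ∈ W, ∀ i, om (v i) w = 1) : #W * 2 ^ k ≤ 2 ^ (2 * m) := by
  classical
  have hli := linInd v hv
  obtain ⟨U, hU⟩ : ∃ U, U = Submodule.span (ZMod 2) (Set.range fun i : Fin k => v i.castSucc) := ⟨_, rfl⟩
  have hUr : finrank (ZMod 2) U = k := by
    rw [hU, finrank_span_eq_card hli, Fintype.card_fin]
  have hk : k ≤ 2 * m := by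
    have := hli.fintype_card_le_finrank
    rwa [Fintype.card_fin, finrank_Vec] at this
  have hc : Nat.card ((omB m).orthogonal U) = 2 ^ (2 * m - k) := by
    rw [card_submodule, finrank_orthogonal, hUr]
  rcases W.eq_empty_or_nonempty with rfl | ⟨w0, hw0⟩
  · simp
  have h1 : #W ≤ Nat.card ((omB m).orthogonal U) := by
    have hf : Fintype ((omB m).orthogonal U) := Fintype.ofFinite _
    have hmem : ∀ w ∈ W, w - w0 ∈ (omB m).orthogonal U := by
      intro w hw
      rw [mem_orthogonal]
      intro u hu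
      rw [hU] at hu
      induction hu using Submodule.span_induction with
      | mem x hx =>
        obtain ⟨i, rfl⟩ := hx
        have e1 := hW w hw i.castSucc
        have e2 := hW w0 hw0 i.castSucc
        show om (v i.castSucc) (w - w0) = 0
        rw [← omB_apply, map_sub, omB_apply, omB_apply, e1, e2, sub_self]
      | zero => exact om_zero_left _
      | add x y _ _ hx hy => rw [om_add_left, hx, hy, add_zero]
      | smul c x _ hx => rw [om_smul_left, hx, mul_zero]
    rw [Nat.card_eq_fintype_card, ← Finset.card_univ]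
    refine Finset.card_le_card_of_injOn (fun w => if h : w ∈ W then ⟨w - w0, hmem w h⟩ else 0)
      (fun _ _ => Finset.mem_coe.2 (Finset.mem_univ _)) ?_
    intro w hw w' hw' h
    rw [Finset.mem_coe] at hw hw'
    simp only [dif_pos hw, dif_pos hw'] at h
    have := congrArg Subtype.val h
    simpa using this
  rw [hc] at h1
  calc #W * 2 ^ k ≤ 2 ^ (2 * m - k) * 2 ^ k := Nat.mul_le_mul_right _ h1
    _ = 2 ^ (2 * m) := by rw [← pow_add, Nat.sub_add_cancel hk]

theorem step_gen {α β γ : Type} (A : Finset α) (B : Finset β) (ini : α → β) (las : α → γ)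
    (hinj : ∀ a ∈ A, ∀ a' ∈ A, ini a = ini a' → las a = las a' → a = a') (hmap : ∀ a ∈ A, ini a ∈ B)
    (n M : ℕ) (hf : ∀ b ∈ B, ∀ W : Finset γ, (∀ w ∈ W, ∃ a ∈ A, ini a = b ∧ las a = w) → #W * n ≤ M) :
    #A * n ≤ #B * M := by
  classical
  have hsum : #A = ∑ u ∈ B, #(A.filter fun v => ini v = u) :=
    Finset.card_eq_sum_card_fiberwise (fun v hv => hmap v hv)
  rw [hsum, Finset.sum_mul]
  calc ∑ u ∈ B, #(A.filter fun v => ini v = u) * n ≤ ∑ u ∈ B, M := by
        refine Finset.sum_le_sum fun u hu => ?_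
        have h1 : #(A.filter fun v => ini v = u) = #((A.filter fun v => ini v = u).image las) := by
          rw [Finset.card_image_of_injOn]
          intro v hv v' hv' h
          rw [Finset.mem_coe, Finset.mem_filter] at hv hv'
          exact hinj v hv.1 v' hv'.1 (hv.2.trans hv'.2.symm) h
        rw [h1]
        refine hf u hu _ ?_
        intro w hw
        rw [Finset.mem_image] at hw
        obtain ⟨v, hv, rfl⟩ := hw
        rw [Finset.mem_filter] at hv
        exact ⟨v, hv.1, hv.2, rfl⟩
    _ = #B * M := by rw [Finset.sum_const, smul_eq_mul]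

/-- all products are one -/
def Q {m k : ℕ} (v : Fin k → Vec m) : Prop := ∀ i j, i ≠ j → om (v i) (v j) = 1

open Classical in
/-- the number of the tuples -/
noncomputable def C (m k : ℕ) : ℕ := #(univ.filter fun v : Fin k → Vec m => Q v)

theorem step (m k : ℕ) : C m (k + 2) * 2 ^ k ≤ C m (k + 1) * 2 ^ (2 * m) := by
  classical
  unfold C
  refine step_gen _ _ (fun (v : Fin (k + 2) → Vec m) (i : Fin (k + 1)) => v i.castSucc)
    (fun v => v (Fin.last (k + 1))) ?_ ?_ _ _ ?_
  · intro v _ v' _ h h'
    funext i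
    refine Fin.lastCases ?_ (fun j => ?_) i
    · exact h'
    · exact congrFun h j
  · intro v hv
    rw [Finset.mem_filter] at hv ⊢
    exact ⟨Finset.mem_univ _, fun i j hij => hv.2 _ _ fun h => hij (Fin.castSucc_injective _ h)⟩
  · intro u hu W hW
    rw [Finset.mem_filter] at hu
    refine fibre u hu.2 W fun w hw i => ?_
    obtain ⟨v, hv, h1, h2⟩ := hW w hw
    rw [Finset.mem_filter] at hv
    rw [← h1, ← h2]
    exact hv.2 _ _ (Fin.castSucc_lt_last i).ne

theorem triangle (k : ℕ) : (k + 1 + 1 - 1) * (k + 1 + 1 - 2) / 2 = k + (k + 1 - 1) * (k + 1 - 2) / 2 := by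
  rcases k with _ | j
  · rfl
  · have e2 : (j + 1 + 1 + 1 - 1) * (j + 1 + 1 + 1 - 2) = (j + 1 + 1 - 1) * (j + 1 + 1 - 2) + 2 * (j + 1) := by
      show (j + 2) * (j + 1) = (j + 1) * j + 2 * (j + 1)
      ring
    rw [e2, Nat.add_mul_div_left _ _ (by norm_num), add_comm]

theorem C_le (m k : ℕ) : C m k ≤ 2 ^ (2 * m * k) := by
  classical
  calc C m k ≤ #(univ : Finset (Fin k → Vec m)) := Finset.card_le_card (Finset.filter_subset _ _)
    _ = (4 ^ m) ^ k := by
      rw [Finset.card_univ, Fintype.card_fun, card_Vec, Fintype.card_fin]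
    _ = 2 ^ (2 * m * k) := by
      rw [pow_mul, pow_mul]
      norm_num

theorem C_bound (m k : ℕ) : C m k * 2 ^ ((k - 1) * (k - 2) / 2) ≤ 2 ^ (2 * m * k) := by
  rcases k with _ | k
  · simpa using C_le m 0
  · induction k with
    | zero =>
      have := C_le m 1
      simpa using this
    | succ k ih =>
      rw [triangle, pow_add]
      calc C m (k + 1 + 1) * (2 ^ k * 2 ^ ((k + 1 - 1) * (k + 1 - 2) / 2)) =
          C m (k + 2) * 2 ^ k * 2 ^ ((k + 1 - 1) * (k + 1 - 2) / 2) := (mul_assoc _ _ _).symm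
        _ ≤ C m (k + 1) * 2 ^ (2 * m) * 2 ^ ((k + 1 - 1) * (k + 1 - 2) / 2) :=
            Nat.mul_le_mul_right _ (step m k)
        _ = C m (k + 1) * 2 ^ ((k + 1 - 1) * (k + 1 - 2) / 2) * 2 ^ (2 * m) := by
            rw [mul_assoc, mul_assoc, mul_comm (2 ^ (2 * m))]
        _ ≤ 2 ^ (2 * m * (k + 1)) * 2 ^ (2 * m) := Nat.mul_le_mul_right _ ih
        _ = 2 ^ (2 * m * (k + 1 + 1)) := by
            rw [← pow_add, mul_add (2 * m) (k + 1) 1, mul_one]

theorem clique_tuples : S_clique_tuples := by
  classical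
  intro m k
  have h := C_bound m k
  unfold C at h
  refine le_trans (Nat.mul_le_mul_right _ (Finset.card_le_card ?_)) h
  intro v hv
  rw [Finset.mem_filter] at hv ⊢
  exact hv

end Pool.Agent.Q154.RK
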