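import Pool.Agent.Q110.RK.Stm

/-!
# Project RK (helper110), job GRW: the growth rates
-/

set_option autoImplicit false

namespace Pool.Agent.Q154.RK

open Finset Module Pool.Agent.Q110.RK

/-- `log (2 k) / k` is small -/
theorem log_small (ε : ℝ) (hε : 0 < ε) : ∃ K : ℕ, ∀ k ≥ K, 1 ≤ k ∧ Real.log (2 * k) / k ≤ ε := by
  have h := Real.tendsto_pow_log_div_mul_add_atTop (1 / 2) 0 1 (by norm_num)
  have h2 : Filter.Tendsto (fun k : ℕ => 2 * (k : ℝ)) Filter.atTop Filter.atTop :=
    Filter.Tendsto.const_mul_atTop (by norm_num) tendsto_natCast_atTop_atTop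
  have h3 := h.comp h2
  have h4 : ∀ᶠ k : ℕ in Filter.atTop, Real.log (2 * (k : ℝ)) / k ≤ ε := by
    have := h3.eventually (eventually_le_nhds hε)
    filter_upwards [this] with k hk
    have e : ((fun x => Real.log x ^ 1 / (1 / 2 * x + 0)) ∘ fun k : ℕ => 2 * (k : ℝ)) k =
        Real.log (2 * (k : ℝ)) / k := by
      simp only [Function.comp, pow_one, add_zero]
      congr 1
      ring
    rwa [e] at hk
  obtain ⟨K, hK⟩ := Filter.eventually_atTop.1 h4
  exact ⟨max K 1, fun k hk => ⟨(le_max_right _ _).trans hk, hK k ((le_max_left _ _).trans hk)⟩⟩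

theorem growth : S_growth := by
  intro hlow hup c hc0 hc1 ε hε
  obtain ⟨K1, hK1⟩ := log_small ε hε
  have hl2 : 0 < Real.log 2 := Real.log_pos (by norm_num)
  -- the threshold of the lower bound
  obtain ⟨K2, hK2⟩ := exists_nat_gt (Real.log 2 / ε)
  obtain ⟨K3, hK3⟩ := exists_nat_gt (1 / c)
  refine ⟨max K1 (max 16 (max K2 K3)), fun k hk => ?_⟩
  have hk1 : K1 ≤ k := (le_max_left _ _).trans hk
  have hk' : max 16 (max K2 K3) ≤ k := (le_max_right _ _).trans hk
  have hk16 : 16 ≤ k := (le_max_left _ _).trans hk'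
  have hk2 : K2 ≤ k := (le_max_left _ _).trans ((le_max_right _ _).trans hk')
  have hk3 : K3 ≤ k := (le_max_right _ _).trans ((le_max_right _ _).trans hk')
  have hk16' : (16 : ℝ) ≤ k := by exact_mod_cast hk16
  have hk0 : (0 : ℝ) < k := by linarith
  have hkn1 : 1 ≤ k := by omega
  obtain ⟨r, hr⟩ : ∃ r, r = ⌊2 * c * (k : ℝ)⌋₊ := ⟨_, rfl⟩
  rw [← hr]
  have hr1 : (r : ℝ) ≤ 2 * c * k := by
    rw [hr]
    exact Nat.floor_le (by positivity)
  constructor
  · -- lower bound
    have hR0 : 0 ≤ Real.log (ramseyRank r k) := Real.log_natCast_nonneg _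
    rcases hc0.eq_or_lt with h0 | h0
    · rw [← h0]
      have : 0 ≤ Real.log (ramseyRank r k) / k := div_nonneg hR0 hk0.le
      linarith [this]
    obtain ⟨m, hm⟩ : ∃ m, m = ⌊c * (k : ℝ)⌋₊ := ⟨_, rfl⟩
    have hm1 : (m : ℝ) ≤ c * k := by
      rw [hm]
      exact Nat.floor_le (by positivity)
    have hm2 : c * k < m + 1 := by
      rw [hm]
      exact Nat.lt_floor_add_one _
    have hck : 1 < c * k := by
      have : 1 / c < k := hK3.trans_le (by exact_mod_cast hk3)
      rwa [div_lt_iff₀ h0, mul_comm] at this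
    have hm3 : 1 ≤ m := by
      rw [hm]
      exact Nat.le_floor (by exact_mod_cast hck.le)
    have hm4 : m ≤ k := by
      have : (m : ℝ) ≤ k := hm1.trans (by nlinarith)
      exact_mod_cast this
    have hm5 : 2 * m ≤ r := by
      rw [hr]
      apply Nat.le_floor
      push_cast
      linarith
    have h := hlow m k r hm3 hm4 hm5
    have hmm : (m : ℝ) ^ 2 ≤ (c * k) ^ 2 := pow_le_pow_left₀ (by positivity) hm1 2
    have hexp : c * k - 1 - c ^ 2 * k / 2 ≤ (m : ℝ) - (m : ℝ) ^ 2 / (2 * k) := by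
      have : (m : ℝ) ^ 2 / (2 * k) ≤ c ^ 2 * k / 2 := by
        rw [div_le_div_iff₀ (by positivity) (by norm_num)]
        nlinarith
      linarith
    have h2 : Real.log (((k : ℝ) / 16) * 2 ^ ((m : ℝ) - (m : ℝ) ^ 2 / (2 * k))) ≤ Real.log (ramseyRank r k) :=
      Real.log_le_log (by positivity) h.le
    rw [Real.log_mul (by positivity) (by positivity), Real.log_rpow (by norm_num)] at h2
    have h3 : 0 ≤ Real.log ((k : ℝ) / 16) := Real.log_nonneg (by linarith)
    have h4 : (c * k - 1 - c ^ 2 * k / 2) * Real.log 2 ≤ Real.log (ramseyRank r k) := by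
      have := mul_le_mul_of_nonneg_right hexp hl2.le
      linarith
    rw [le_div_iff₀ hk0]
    have h5 : Real.log 2 ≤ ε * k := by
      have : Real.log 2 / ε < k := hK2.trans_le (by exact_mod_cast hk2)
      rw [div_lt_iff₀ hε] at this
      linarith
    nlinarith
  · -- upper bound
    obtain ⟨-, hl⟩ := hK1 k hk1
    have h := hup r k hkn1
    obtain ⟨s, hs⟩ : ∃ s, s = r / 2 := ⟨_, rfl⟩
    rw [← hs] at h
    have hs1 : (s : ℝ) ≤ c * k := by
      have h1 : 2 * s ≤ r := by omega
      have h2 : (2 : ℝ) * s ≤ r := by exact_mod_cast h1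
      linarith
    have h1 : ramseyRank r k ≤ 2 * k * 2 ^ s := by
      have hp : 1 ≤ 2 ^ s := Nat.one_le_two_pow
      obtain ⟨j, rfl⟩ : ∃ j, k = j + 1 := ⟨k - 1, by omega⟩
      calc ramseyRank r (j + 1) ≤ (j + 1 - 1) * (2 ^ s + 1) + 1 := h
        _ = j * (2 ^ s + 1) + 1 := by rw [Nat.add_sub_cancel]
        _ ≤ 2 * (j + 1) * 2 ^ s := by nlinarith
    have h2 : (ramseyRank r k : ℝ) ≤ 2 * k * 2 ^ s := by exact_mod_cast h1
    have h3 : Real.log (ramseyRank r k) ≤ Real.log (2 * k) + s * Real.log 2 := by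
      rcases Nat.eq_zero_or_pos (ramseyRank r k) with h0 | h0
      · rw [h0, Nat.cast_zero, Real.log_zero]
        have : 0 ≤ Real.log (2 * (k : ℝ)) := Real.log_nonneg (by linarith)
        positivity
      · have h4 : (0 : ℝ) < ramseyRank r k := by exact_mod_cast h0
        have h5 := Real.log_le_log h4 h2
        rwa [Real.log_mul (by positivity) (by positivity), Real.log_pow] at h5
    rw [div_le_iff₀ hk0]
    rw [div_le_iff₀ hk0] at hl
    have h6 : (s : ℝ) * Real.log 2 ≤ c * k * Real.log 2 := mul_le_mul_of_nonneg_right hs1 hl2.le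
    nlinarith

end Pool.Agent.Q154.RK
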