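import Pool.Agent.Q110.RK.Stm

/-!
# Project RK (helper110), job NUM: the numerical inequality
-/

set_option autoImplicit false

namespace Pool.Agent.Q154.RK

open Finset Module Pool.Agent.Q110.RK

/-- the numerical constant -/
theorem const_bound (k : ℕ) (hk : 1 ≤ k) :
    Real.exp 1 ^ k * (1 / 16 : ℝ) ^ k * ((2 : ℝ) ^ ((k : ℝ) + 1 + (k : ℝ) / 2)) < 1 := by
  have hs : Real.sqrt 2 < 1.4143 := by
    rw [Real.sqrt_lt' (by norm_num)]
    norm_num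
  have he : Real.exp 1 < 2.7182818286 := Real.exp_one_lt_d9
  have he0 : 0 < Real.exp 1 := Real.exp_pos 1
  have hs0 : 0 < Real.sqrt 2 := Real.sqrt_pos.2 (by norm_num)
  have h1 : (2 : ℝ) ^ ((k : ℝ) + 1 + (k : ℝ) / 2) = 2 * (2 * Real.sqrt 2) ^ k := by
    rw [Real.rpow_add (by norm_num), Real.rpow_add (by norm_num), Real.rpow_one, Real.rpow_natCast, mul_pow]
    have h2 : (2 : ℝ) ^ ((k : ℝ) / 2) = Real.sqrt 2 ^ k := by
      rw [Real.sqrt_eq_rpow, ← Real.rpow_natCast, ← Real.rpow_mul (by norm_num)]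
      congr 1
      ring
    rw [h2]
    ring
  rw [h1]
  have h3 : Real.exp 1 ^ k * (1 / 16 : ℝ) ^ k * (2 * (2 * Real.sqrt 2) ^ k) =
      2 * (Real.exp 1 * (1 / 16) * (2 * Real.sqrt 2)) ^ k := by
    rw [mul_pow, mul_pow]
    ring
  rw [h3]
  have h4 : Real.exp 1 * (1 / 16) * (2 * Real.sqrt 2) < 0.49 := by
    have h5 : Real.exp 1 * Real.sqrt 2 < 2.7182818286 * 1.4143 :=
      mul_lt_mul'' he hs he0.le hs0.le
    have h6 : (2.7182818286 : ℝ) * 1.4143 < 3.9 := by norm_num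
    linarith
  have h5 : (0 : ℝ) ≤ Real.exp 1 * (1 / 16) * (2 * Real.sqrt 2) := by positivity
  have h6 : (Real.exp 1 * (1 / 16) * (2 * Real.sqrt 2)) ^ k ≤ Real.exp 1 * (1 / 16) * (2 * Real.sqrt 2) := by
    have := pow_le_pow_of_le_one h5 (by linarith : Real.exp 1 * (1 / 16) * (2 * Real.sqrt 2) ≤ 1) hk
    rwa [pow_one] at this
  linarith

theorem num1 (m k N : ℕ) (hm : 1 ≤ m) (hmk : m ≤ k)
    (hN : (N : ℝ) ≤ k / 16 * 2 ^ ((m : ℝ) - (m : ℝ) ^ 2 / (2 * k))) :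
    N.choose k * 2 ^ (k + 1 + m * k + m * (m + 1) / 2) < 4 ^ (m * k) := by
  have hk : 1 ≤ k := hm.trans hmk
  have hk0 : (0 : ℝ) < k := by exact_mod_cast hk
  obtain ⟨a, ha⟩ := Nat.even_mul_succ_self m
  have ha2 : m * (m + 1) / 2 = a := by omega
  have haR : (a : ℝ) = (m : ℝ) * (m + 1) / 2 := by
    have h : ((m * (m + 1) : ℕ) : ℝ) = ((a + a : ℕ) : ℝ) := by rw [ha]
    push_cast at h
    linarith
  rw [ha2]
  have h1 : (N.choose k : ℝ) ≤ (N : ℝ) ^ k / k.factorial := Nat.choose_le_pow_div k N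
  have h2 : (N : ℝ) ^ k ≤ ((k : ℝ) / 16 * 2 ^ ((m : ℝ) - (m : ℝ) ^ 2 / (2 * k))) ^ k :=
    pow_le_pow_left₀ (by positivity) hN k
  have h3 : ((k : ℝ) / 16 * 2 ^ ((m : ℝ) - (m : ℝ) ^ 2 / (2 * k))) ^ k =
      (k : ℝ) ^ k * (1 / 16) ^ k * 2 ^ ((m : ℝ) * k - (m : ℝ) ^ 2 / 2) := by
    rw [mul_pow, div_eq_mul_one_div, mul_pow, ← Real.rpow_natCast (2 ^ _) k, ← Real.rpow_mul (by norm_num)]
    congr 2
    field_simp
  have h4 : (k : ℝ) ^ k / k.factorial ≤ Real.exp 1 ^ k := by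
    have := Real.pow_div_factorial_le_exp (k : ℝ) hk0.le k
    rwa [← mul_one (k : ℝ), Real.exp_nat_mul, mul_one] at this
  have hf : (0 : ℝ) < k.factorial := by exact_mod_cast k.factorial_pos
  have h5 : (N.choose k : ℝ) ≤ Real.exp 1 ^ k * (1 / 16) ^ k * 2 ^ ((m : ℝ) * k - (m : ℝ) ^ 2 / 2) := by
    calc (N.choose k : ℝ) ≤ (N : ℝ) ^ k / k.factorial := h1
      _ ≤ ((k : ℝ) ^ k * (1 / 16) ^ k * 2 ^ ((m : ℝ) * k - (m : ℝ) ^ 2 / 2)) / k.factorial := by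
          rw [← h3]
          exact div_le_div_of_nonneg_right h2 hf.le
      _ = (k : ℝ) ^ k / k.factorial * ((1 / 16) ^ k * 2 ^ ((m : ℝ) * k - (m : ℝ) ^ 2 / 2)) := by ring
      _ ≤ Real.exp 1 ^ k * ((1 / 16) ^ k * 2 ^ ((m : ℝ) * k - (m : ℝ) ^ 2 / 2)) :=
          mul_le_mul_of_nonneg_right h4 (by positivity)
      _ = _ := by ring
  have h6 : ((N.choose k * 2 ^ (k + 1 + m * k + a) : ℕ) : ℝ) < ((4 ^ (m * k) : ℕ) : ℝ) := by
    push_cast
    have e1 : (2 : ℝ) ^ (k + 1 + m * k + a) = 2 ^ (((k + 1 + m * k + a : ℕ) : ℝ)) := by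
      rw [Real.rpow_natCast]
    have e2 : (4 : ℝ) ^ (m * k) = 2 ^ (((2 * (m * k) : ℕ) : ℝ)) := by
      rw [Real.rpow_natCast, pow_mul (2 : ℝ) 2 (m * k)]
      norm_num
    rw [e1, e2]
    calc (N.choose k : ℝ) * 2 ^ (((k + 1 + m * k + a : ℕ) : ℝ)) ≤
        Real.exp 1 ^ k * (1 / 16) ^ k * 2 ^ ((m : ℝ) * k - (m : ℝ) ^ 2 / 2) * 2 ^ (((k + 1 + m * k + a : ℕ) : ℝ)) :=
          mul_le_mul_of_nonneg_right h5 (by positivity)
      _ = Real.exp 1 ^ k * (1 / 16) ^ k * 2 ^ ((k : ℝ) + 1 + (m : ℝ) / 2) * 2 ^ (((2 * (m * k) : ℕ) : ℝ)) := by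
          rw [mul_assoc, ← Real.rpow_add (by norm_num), mul_assoc (Real.exp 1 ^ k * (1 / 16) ^ k),
            ← Real.rpow_add (by norm_num)]
          congr 2
          push_cast
          rw [haR]
          ring
      _ ≤ Real.exp 1 ^ k * (1 / 16) ^ k * 2 ^ ((k : ℝ) + 1 + (k : ℝ) / 2) * 2 ^ (((2 * (m * k) : ℕ) : ℝ)) := by
          refine mul_le_mul_of_nonneg_right (mul_le_mul_of_nonneg_left ?_ (by positivity)) (by positivity)
          apply Real.rpow_le_rpow_of_exponent_le (by norm_num)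
          have : (m : ℝ) ≤ k := by exact_mod_cast hmk
          linarith
      _ < 1 * 2 ^ (((2 * (m * k) : ℕ) : ℝ)) :=
          mul_lt_mul_of_pos_right (const_bound k hk) (by positivity)
      _ = _ := one_mul _
  exact_mod_cast h6

theorem num2 (m k : ℕ) : 2 * m * k ≤ k + m * k + m * (m + 1) / 2 + (k - 1) * (k - 2) / 2 := by
  obtain ⟨a, ha⟩ := Nat.even_mul_succ_self m
  have ha2 : m * (m + 1) / 2 = a := by omega
  rw [ha2]
  rcases k with _ | _ | j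
  · simp
  · have : m ≤ a + 1 := by nlinarith
    simp
    omega
  · obtain ⟨b, hb⟩ := Nat.even_mul_succ_self j
    have hb2 : (j + 1 + 1 - 1) * (j + 1 + 1 - 2) / 2 = b := by
      have : (j + 1 + 1 - 1) * (j + 1 + 1 - 2) = j * (j + 1) := by
        show (j + 1) * j = j * (j + 1)
        ring
      rw [this]
      omega
    rw [hb2]
    zify at ha hb ⊢
    nlinarith [sq_nonneg ((m : ℤ) - j - 2), sq_nonneg ((m : ℤ) - j - 1)]

theorem num : S_num := ⟨num1, num2⟩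

end Pool.Agent.Q154.RK
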