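import Pool.Agent.Q110.RK.Stm

/-!
# Project RK (helper110), job UNI: the union bound
-/

set_option autoImplicit false

namespace Pool.Agent.Q154.RK

open Finset Module Pool.Agent.Q110.RK

theorem card_bound (m k N : ℕ) (S : Finset (Fin N)) (hS : #S = k) (e : Fin k ≃ {x // x ∈ S})
    (T : Finset (Fin k → Vec m)) (P : Finset (Fin N → Vec m))
    (hP : ∀ φ ∈ P, (fun i => φ (e i)) ∈ T) : #P ≤ #T * 4 ^ (m * (N - k)) := by
  classical
  have h1 : #P ≤ #(T ×ˢ (univ : Finset ({x : Fin N // x ∉ S} → Vec m))) := by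
    refine Finset.card_le_card_of_injOn (fun φ => (fun i => φ (e i), fun x => φ x.1)) ?_ ?_
    · intro φ hφ
      exact Finset.mem_coe.2 (Finset.mem_product.2 ⟨hP φ hφ, Finset.mem_univ _⟩)
    · intro φ _ ψ _ h
      rw [Prod.mk.injEq] at h
      funext x
      by_cases hx : x ∈ S
      · have h2 := congrFun h.1 (e.symm ⟨x, hx⟩)
        simpa using h2
      · exact congrFun h.2 ⟨x, hx⟩
  have h2 : #(univ : Finset ({x : Fin N // x ∉ S} → Vec m)) = 4 ^ (m * (N - k)) := by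
    rw [Finset.card_univ, Fintype.card_fun, card_Vec, Fintype.card_subtype_compl, Fintype.card_fin,
      Fintype.card_coe, hS, pow_mul]
  rwa [Finset.card_product, h2] at h1

theorem union : S_union := by
  classical
  intro m k N h
  by_contra hcon
  push Not at hcon
  obtain ⟨T0, hT0⟩ : ∃ T : Finset (Fin k → Vec m),
      T = univ.filter fun v : Fin k → Vec m => ∀ i j, om (v i) (v j) = 0 := ⟨_, rfl⟩
  obtain ⟨T1, hT1⟩ : ∃ T : Finset (Fin k → Vec m),
      T = univ.filter fun v : Fin k → Vec m => ∀ i j, i ≠ j → om (v i) (v j) = 1 := ⟨_, rfl⟩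
  rw [← hT0, ← hT1] at h
  obtain ⟨B, hB⟩ : ∃ B : Finset (Fin N) → Finset (Fin N → Vec m), ∀ S φ, φ ∈ B S ↔
      (∀ x ∈ S, ∀ y ∈ S, om (φ x) (φ y) = 0) ∨ (∀ x ∈ S, ∀ y ∈ S, x ≠ y → om (φ x) (φ y) = 1) :=
    ⟨fun S => univ.filter fun φ => (∀ x ∈ S, ∀ y ∈ S, om (φ x) (φ y) = 0) ∨
      (∀ x ∈ S, ∀ y ∈ S, x ≠ y → om (φ x) (φ y) = 1), fun S φ => by simp⟩
  have hkN : k ≤ N := by
    obtain ⟨S, hS, -⟩ := hcon 0
    rw [← hS]
    exact (Finset.card_le_univ S).trans_eq (Fintype.card_fin N)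
  have hBc : ∀ S ∈ (univ : Finset (Fin N)).powersetCard k, #(B S) ≤ (#T0 + #T1) * 4 ^ (m * (N - k)) := by
    intro S hS
    have hS' : #S = k := (Finset.mem_powersetCard.1 hS).2
    have e : Fin k ≃ {x // x ∈ S} := (Finset.equivFinOfCardEq hS').symm
    obtain ⟨P0, hP0⟩ : ∃ P : Finset (Fin N → Vec m), ∀ φ, φ ∈ P ↔
        (∀ x ∈ S, ∀ y ∈ S, om (φ x) (φ y) = 0) :=
      ⟨univ.filter fun φ => (∀ x ∈ S, ∀ y ∈ S, om (φ x) (φ y) = 0), fun φ => by simp⟩
    obtain ⟨P1, hP1⟩ : ∃ P : Finset (Fin N → Vec m), ∀ φ, φ ∈ P ↔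
        (∀ x ∈ S, ∀ y ∈ S, x ≠ y → om (φ x) (φ y) = 1) :=
      ⟨univ.filter fun φ => (∀ x ∈ S, ∀ y ∈ S, x ≠ y → om (φ x) (φ y) = 1), fun φ => by simp⟩
    have h1 : B S ⊆ P0 ∪ P1 := by
      intro φ hφ
      rw [Finset.mem_union, hP0, hP1]
      exact (hB S φ).1 hφ
    have h2 : #P0 ≤ #T0 * 4 ^ (m * (N - k)) := by
      apply card_bound m k N S hS' e
      intro φ hφ
      rw [hT0, Finset.mem_filter]
      exact ⟨Finset.mem_univ _, fun i j => (hP0 φ).1 hφ _ (e i).2 _ (e j).2⟩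
    have h3 : #P1 ≤ #T1 * 4 ^ (m * (N - k)) := by
      apply card_bound m k N S hS' e
      intro φ hφ
      rw [hT1, Finset.mem_filter]
      refine ⟨Finset.mem_univ _, fun i j hij => (hP1 φ).1 hφ _ (e i).2 _ (e j).2 ?_⟩
      intro h4
      exact hij (e.injective (Subtype.ext h4))
    calc #(B S) ≤ #(P0 ∪ P1) := Finset.card_le_card h1
      _ ≤ #P0 + #P1 := Finset.card_union_le _ _
      _ ≤ #T0 * 4 ^ (m * (N - k)) + #T1 * 4 ^ (m * (N - k)) := Nat.add_le_add h2 h3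
      _ = _ := by ring
  have hall : (univ : Finset (Fin N → Vec m)) ⊆ ((univ : Finset (Fin N)).powersetCard k).biUnion B := by
    intro φ _
    obtain ⟨S, hS, h1⟩ := hcon φ
    rw [Finset.mem_biUnion]
    refine ⟨S, Finset.mem_powersetCard.2 ⟨Finset.subset_univ _, hS⟩, (hB S φ).2 ?_⟩
    by_cases h2 : ∀ x ∈ S, ∀ y ∈ S, om (φ x) (φ y) = 0
    · exact Or.inl h2
    · exact Or.inr (h1 (by push Not at h2; exact h2))
  have h1 : 4 ^ (m * N) ≤ N.choose k * ((#T0 + #T1) * 4 ^ (m * (N - k))) := by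
    calc 4 ^ (m * N) = #(univ : Finset (Fin N → Vec m)) := by
          rw [Finset.card_univ, Fintype.card_fun, card_Vec, Fintype.card_fin, pow_mul]
      _ ≤ #(((univ : Finset (Fin N)).powersetCard k).biUnion B) := Finset.card_le_card hall
      _ ≤ #((univ : Finset (Fin N)).powersetCard k) * ((#T0 + #T1) * 4 ^ (m * (N - k))) :=
          Finset.card_biUnion_le_card_mul _ _ _ hBc
      _ = _ := by rw [Finset.card_powersetCard, Finset.card_univ, Fintype.card_fin]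
  have h2 : 4 ^ (m * N) = 4 ^ (m * k) * 4 ^ (m * (N - k)) := by
    rw [← pow_add, ← mul_add, Nat.add_sub_cancel' hkN]
  rw [h2, ← mul_assoc] at h1
  exact absurd (Nat.le_of_mul_le_mul_right h1 (by positivity)) (not_le.2 h)

end Pool.Agent.Q154.RK
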